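import Mathlib

/-!
# The first nontrivial gcd of two gcd recursions

As long as all gcds are `1` the recursions are explicit, and a prime factor of the first gcd larger than `1` is a prime
factor of `N` (for the Goldbach recursion) or of `(N - 4) (N - 2) (N + 2)` (for the recursion of the prime triples).
-/

set_option autoImplicit false

namespace Pool.Agent.X32.Dev

/-- the sequence of MP_b5e119 -/
def RecA (N : ℕ) (a : ℕ → ℤ) : Prop :=
  a 1 = (N : ℤ) - 2 ∧ ∀ n : ℕ, 2 ≤ n → a n = a (n - 1) -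
    ((Int.gcd (a (n - 1)) ((N : ℤ) - (-1) ^ n * ((N : ℤ) - n)) : ℕ) : ℤ)

/-- the 3-periodic sequence `2, 6, 0` -/
def b (n : ℕ) : ℕ := if n % 3 = 1 then 2 else if n % 3 = 2 then 6 else 0

/-- the sequence of MP_3f8e47 -/
def RecB (N : ℕ) (a : ℕ → ℤ) : Prop :=
  a 1 = (N : ℤ) - 6 ∧ ∀ n : ℕ, 2 ≤ n →
    a n = a (n - 1) - ((Int.gcd (a (n - 1)) ((n + b n : ℕ) : ℤ) : ℕ) : ℤ)

lemma tail (a : ℕ → ℤ) (n₀ t f : ℕ) (hn : n₀ ≤ t) (ht : 0 ≤ a t)
    (hstep : ∀ n, t ≤ n → 0 < a n → 0 ≤ a (n + 1) ∧ a (n + 1) ≤ a n - 1)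
    (hf : IsLeast {n : ℕ | n₀ ≤ n ∧ a n = 0} f) : (f : ℤ) ≤ t + a t := by
  by_contra hcon
  push Not at hcon
  have htf : t < f := by
    have : (t : ℤ) < f := by linarith
    exact_mod_cast this
  have hne : ∀ n, t ≤ n → n < f → a n ≠ 0 := by
    intro n h1 h2 h3
    have := hf.2 ⟨hn.trans h1, h3⟩
    omega
  have hall : ∀ k : ℕ, t + k < f → 0 < a (t + k) ∧ a (t + k) ≤ a t - k := by
    intro k
    induction k with
    | zero =>
      intro h
      have := hne t le_rfl htf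
      simp only [add_zero, Nat.cast_zero, sub_zero]
      omega
    | succ k ih =>
      intro h
      obtain ⟨h1, h2⟩ := ih (by omega)
      obtain ⟨h3, h4⟩ := hstep (t + k) (by omega) h1
      have h5 := hne (t + (k + 1)) (by omega) h
      have e1 : t + (k + 1) = t + k + 1 := by ring
      rw [e1] at h5 ⊢
      push_cast
      omega
  have h1 := hall (a t).toNat (by
    have : ((t + (a t).toNat : ℕ) : ℤ) < f := by
      push_cast
      rw [Int.toNat_of_nonneg ht]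
      exact hcon
    exact_mod_cast this)
  rw [Int.toNat_of_nonneg ht] at h1
  omega

lemma stepA {N : ℕ} {a : ℕ → ℤ} (ha : RecA N a) (n : ℕ) (hn : 1 ≤ n) (hpos : 0 < a n) :
    0 ≤ a (n + 1) ∧ a (n + 1) ≤ a n - 1 := by
  have h3 := ha.2 (n + 1) (by omega)
  rw [Nat.add_sub_cancel] at h3
  have h4 : (((Int.gcd (a n) ((N : ℤ) - (-1) ^ (n + 1) * ((N : ℤ) - ((n + 1 : ℕ) : ℤ))) : ℕ)) : ℤ)
      ≤ a n := Int.le_of_dvd hpos (Int.gcd_dvd_left _ _)
  have h5 : 0 < Int.gcd (a n) ((N : ℤ) - (-1) ^ (n + 1) * ((N : ℤ) - ((n + 1 : ℕ) : ℤ))) :=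
    Int.gcd_pos_of_ne_zero_left _ (by omega)
  omega

lemma stepB {N : ℕ} {a : ℕ → ℤ} (ha : RecB N a) (n : ℕ) (hn : 1 ≤ n) (hpos : 0 < a n) :
    0 ≤ a (n + 1) ∧ a (n + 1) ≤ a n - 1 := by
  have h3 := ha.2 (n + 1) (by omega)
  rw [Nat.add_sub_cancel] at h3
  have h4 : (((Int.gcd (a n) ((n + 1 + b (n + 1) : ℕ) : ℤ) : ℕ)) : ℤ)
      ≤ a n := Int.le_of_dvd hpos (Int.gcd_dvd_left _ _)
  have h5 : 0 < Int.gcd (a n) ((n + 1 + b (n + 1) : ℕ) : ℤ) :=
    Int.gcd_pos_of_ne_zero_left _ (by omega)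
  omega

/-- an integer that divides `N - n` and the second argument divides `N` and `n` -/
lemma dvdA (N n d : ℤ) (k : ℕ) (h1 : d ∣ N - n) (h2 : d ∣ N - (-1) ^ k * (N - n)) : d ∣ N ∧ d ∣ n := by
  have h3 : d ∣ (-1) ^ k * (N - n) := h1.mul_left _
  have h4 : d ∣ N := by
    have := dvd_add h2 h3
    simpa using this
  refine ⟨h4, ?_⟩
  have := dvd_sub h4 h1
  simpa using this

/-- **the first zero of the Goldbach recursion is at most `N - minFac N` for composite `N`** -/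
theorem detA (N : ℕ) (hN : 3 ≤ N) (hc : ¬ N.Prime) (a : ℕ → ℤ) (ha : RecA N a) (g : ℕ)
    (hg : IsLeast {n : ℕ | 2 ≤ n ∧ a n = 0} g) : g + N.minFac ≤ N := by
  obtain ⟨P, hP⟩ : ∃ P, P = N.minFac := ⟨_, rfl⟩
  have hPp : P.Prime := by rw [hP]; exact Nat.minFac_prime (by omega)
  have hPN : P ∣ N := by rw [hP]; exact Nat.minFac_dvd N
  have hP2 : P ^ 2 ≤ N := by rw [hP]; exact Nat.minFac_sq_le_self (by omega) hc
  have h2P : 2 ≤ P := hPp.two_le
  have h2PN : 2 * P ≤ N := by nlinarith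
  rw [← hP]
  have hwalk : ∀ n : ℕ, 1 ≤ n → n < P → a n = (N : ℤ) - 1 - n := by
    intro n hn
    induction n, hn using Nat.le_induction with
    | base =>
      intro _
      rw [ha.1]
      push_cast
      ring
    | succ n hn ih =>
      intro h
      have h1 := ih (by omega)
      have h3 := ha.2 (n + 1) (by omega)
      rw [Nat.add_sub_cancel] at h3
      have h4 : Int.gcd (a n) ((N : ℤ) - (-1) ^ (n + 1) * ((N : ℤ) - ((n + 1 : ℕ) : ℤ))) = 1 := by
        obtain ⟨d, hd⟩ : ∃ d, d = Int.gcd (a n) ((N : ℤ) - (-1) ^ (n + 1) * ((N : ℤ) - ((n + 1 : ℕ) : ℤ))) :=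
          ⟨_, rfl⟩
        rw [← hd]
        have h5 : (d : ℤ) ∣ a n := by rw [hd]; exact Int.gcd_dvd_left _ _
        have h6 : (d : ℤ) ∣ (N : ℤ) - (-1) ^ (n + 1) * ((N : ℤ) - ((n + 1 : ℕ) : ℤ)) := by
          rw [hd]; exact Int.gcd_dvd_right _ _
        have h7 : (d : ℤ) ∣ (N : ℤ) - ((n + 1 : ℕ) : ℤ) := by
          rw [h1] at h5
          have e : (N : ℤ) - ((n + 1 : ℕ) : ℤ) = (N : ℤ) - 1 - n := by push_cast; ring
          rwa [e]
        obtain ⟨h8, h9⟩ := dvdA _ _ _ _ h7 h6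
        have h8' : d ∣ N := by exact_mod_cast h8
        have h9' : d ∣ n + 1 := by exact_mod_cast h9
        by_contra hd1
        have hd0 : d ≠ 0 := by
          rintro rfl
          have := Nat.eq_zero_of_zero_dvd h9'
          omega
        have h10 : N.minFac ≤ d := Nat.minFac_le_of_dvd (by omega) h8'
        have h11 := Nat.le_of_dvd (by omega) h9'
        omega
      rw [h3, h4, h1]
      push_cast
      ring
  have hprev := hwalk (P - 1) (by omega) (by omega)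
  have hprev' : a (P - 1) = (N : ℤ) - P := by
    rw [hprev]
    have : ((P - 1 : ℕ) : ℤ) = (P : ℤ) - 1 := by omega
    rw [this]; ring
  have hposP : 0 < a (P - 1) := by
    rw [hprev']
    have : (P : ℤ) < N := by exact_mod_cast (by omega : P < N)
    linarith
  have h3 := ha.2 P (by omega)
  obtain ⟨d, hd⟩ : ∃ d, d = Int.gcd (a (P - 1)) ((N : ℤ) - (-1) ^ P * ((N : ℤ) - (P : ℤ))) := ⟨_, rfl⟩
  rw [← hd] at h3
  have hPd : P ∣ d := by
    rw [hd]
    apply Int.natCast_dvd_natCast.1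
    apply Int.dvd_coe_gcd
    · rw [hprev']
      exact dvd_sub (by exact_mod_cast hPN) dvd_rfl
    · exact dvd_sub (by exact_mod_cast hPN) ((dvd_sub (by exact_mod_cast hPN) dvd_rfl).mul_left _)
  have hdpos : 0 < d := by
    rw [hd]
    exact Int.gcd_pos_of_ne_zero_left _ hposP.ne'
  have hPd' : P ≤ d := Nat.le_of_dvd hdpos hPd
  have hda : (d : ℤ) ≤ a (P - 1) := by
    rw [hd]
    exact Int.le_of_dvd hposP (Int.gcd_dvd_left _ _)
  have haP : 0 ≤ a P := by rw [h3]; linarith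
  have h4 := tail a 2 P g h2P haP (fun n hn hp => stepA ha n (by omega) hp) hg
  rw [h3, hprev'] at h4
  have : ((g + P : ℕ) : ℤ) ≤ N := by
    push_cast
    have : (P : ℤ) ≤ d := by exact_mod_cast hPd'
    linarith
  exact_mod_cast this

/-- **the deterministic part for the prime triples** -/
theorem detB (N y : ℕ) (hN : 36 ≤ N) (hy9 : 9 ≤ y)
    (hy : ∀ q : ℕ, q.Prime → (q ∣ N - 4 ∨ q ∣ N - 2 ∨ q ∣ N + 2) → y < q)
    (hc : ¬ (N - 4).Prime ∨ ¬ (N - 2).Prime ∨ ¬ (N + 2).Prime) (a : ℕ → ℤ) (ha : RecB N a) (f : ℕ)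
    (hf : IsLeast {n : ℕ | 1 ≤ n ∧ a n = 0} f) : f + y + 5 ≤ N := by
  classical
  have hb0 : ∀ n, b n ≤ 6 := by intro n; unfold b; split_ifs <;> omega
  -- a time at which the gcd is not one, if all the previous ones are
  have hkey : ∃ n₀ q : ℕ, q.Prime ∧ 2 ≤ n₀ ∧ n₀ + 5 ≤ N ∧ q ∣ n₀ + b n₀ ∧ (q : ℤ) ∣ (N : ℤ) - 4 - n₀ := by
    rcases hc with h | h | h
    · have hqp := Nat.minFac_prime (n := N - 4) (by omega)
      have hqd := Nat.minFac_dvd (N - 4)
      have hq2 := Nat.minFac_sq_le_self (n := N - 4) (by omega) h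
      obtain ⟨q, hq⟩ : ∃ q, q = (N - 4).minFac := ⟨_, rfl⟩
      rw [← hq] at hqp hqd hq2
      have hyq := hy q hqp (Or.inl hqd)
      have hb : b (3 * q) = 0 := by
        unfold b
        rw [if_neg (by omega), if_neg (by omega)]
      refine ⟨3 * q, q, hqp, by omega, ?_, ?_, ?_⟩
      · have : 10 * q ≤ q ^ 2 := by nlinarith
        omega
      · rw [hb, add_zero]; exact Dvd.intro_left _ rfl
      · have h1 : (q : ℤ) ∣ (N : ℤ) - 4 := by
          have e : ((N - 4 : ℕ) : ℤ) = (N : ℤ) - 4 := by omega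
          rw [← e]; exact_mod_cast hqd
        exact dvd_sub h1 (by push_cast; exact Dvd.intro_left _ rfl)
    · have hqp := Nat.minFac_prime (n := N - 2) (by omega)
      have hqd := Nat.minFac_dvd (N - 2)
      have hq2 := Nat.minFac_sq_le_self (n := N - 2) (by omega) h
      obtain ⟨q, hq⟩ : ∃ q, q = (N - 2).minFac := ⟨_, rfl⟩
      rw [← hq] at hqp hqd hq2
      have hyq := hy q hqp (Or.inr (Or.inl hqd))
      have hb : b (3 * q - 2) = 2 := by
        unfold b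
        rw [if_pos (by omega)]
      refine ⟨3 * q - 2, q, hqp, by omega, ?_, ?_, ?_⟩
      · have : 10 * q ≤ q ^ 2 := by nlinarith
        omega
      · rw [hb, show 3 * q - 2 + 2 = 3 * q by omega]; exact Dvd.intro_left _ rfl
      · have h1 : (q : ℤ) ∣ (N : ℤ) - 2 := by
          have e : ((N - 2 : ℕ) : ℤ) = (N : ℤ) - 2 := by omega
          rw [← e]; exact_mod_cast hqd
        have e : (N : ℤ) - 4 - ((3 * q - 2 : ℕ) : ℤ) = (N : ℤ) - 2 - 3 * q := by omega
        rw [e]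
        exact dvd_sub h1 (Dvd.intro_left _ rfl)
    · have hqp := Nat.minFac_prime (n := N + 2) (by omega)
      have hqd := Nat.minFac_dvd (N + 2)
      have hq2 := Nat.minFac_sq_le_self (n := N + 2) (by omega) h
      obtain ⟨q, hq⟩ : ∃ q, q = (N + 2).minFac := ⟨_, rfl⟩
      rw [← hq] at hqp hqd hq2
      have hyq := hy q hqp (Or.inr (Or.inr hqd))
      have hq3 : q % 3 ≠ 0 := by
        intro h0
        have := (Nat.prime_dvd_prime_iff_eq Nat.prime_three hqp).1 (Nat.dvd_of_mod_eq_zero h0)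
        omega
      obtain ⟨e, he1, he2, he3⟩ : ∃ e : ℕ, 1 ≤ e ∧ e ≤ 2 ∧ e * q % 3 = 2 := by
        rcases (by omega : q % 3 = 1 ∨ q % 3 = 2) with h1 | h1
        · exact ⟨2, by omega, le_rfl, by omega⟩
        · exact ⟨1, le_rfl, by omega, by omega⟩
      have heq : q ≤ e * q := Nat.le_mul_of_pos_left q he1
      have heq2 : e * q ≤ 2 * q := Nat.mul_le_mul_right q he2
      have hb : b (e * q - 6) = 6 := by
        unfold b
        rw [if_neg (by omega), if_pos (by omega)]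
      refine ⟨e * q - 6, q, hqp, by omega, ?_, ?_, ?_⟩
      · have : 2 * q ≤ N + 1 := by nlinarith
        omega
      · rw [hb, show e * q - 6 + 6 = e * q by omega]; exact Dvd.intro_left _ rfl
      · have h1 : (q : ℤ) ∣ (N : ℤ) + 2 := by exact_mod_cast hqd
        have e1 : (N : ℤ) - 4 - ((e * q - 6 : ℕ) : ℤ) = (N : ℤ) + 2 - ((e * q : ℕ) : ℤ) := by omega
        rw [e1]
        refine dvd_sub h1 ?_
        exact_mod_cast Dvd.intro_left e rfl
  obtain ⟨n₀, q₀, hq₀, hn₀, hn₀N, hdv1, hdv2⟩ := hkey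
  -- the walk as long as all gcds are one
  have hwalk : ∀ T : ℕ, T + 5 ≤ N → (∀ n : ℕ, 2 ≤ n → n < T → Int.gcd (a (n - 1)) ((n + b n : ℕ) : ℤ) = 1) →
      ∀ n : ℕ, 1 ≤ n → n < T → a n = (N : ℤ) - 5 - n := by
    intro T _ hT n hn
    induction n, hn using Nat.le_induction with
    | base =>
      intro _
      rw [ha.1]
      push_cast
      ring
    | succ n hn ih =>
      intro h
      have h1 := ih (by omega)
      have h3 := ha.2 (n + 1) (by omega)
      have h4 := hT (n + 1) (by omega) h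
      rw [h4, Nat.add_sub_cancel, h1] at h3
      rw [h3]
      push_cast
      ring
  have hex : ∃ t : ℕ, 2 ≤ t ∧ t ≤ n₀ ∧ Int.gcd (a (t - 1)) ((t + b t : ℕ) : ℤ) ≠ 1 := by
    by_contra hcon
    push Not at hcon
    have h1 := hwalk n₀ hn₀N (fun n h1 h2 => hcon n h1 (by omega)) (n₀ - 1) (by omega) (by omega)
    have h2 := hcon n₀ hn₀ le_rfl
    have e : ((n₀ - 1 : ℕ) : ℤ) = (n₀ : ℤ) - 1 := by omega
    rw [e] at h1
    have h3 : (q₀ : ℤ) ∣ a (n₀ - 1) := by
      rw [h1]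
      have e2 : (N : ℤ) - 5 - ((n₀ : ℤ) - 1) = (N : ℤ) - 4 - n₀ := by ring
      rwa [e2]
    have h4 : (q₀ : ℤ) ∣ ((n₀ + b n₀ : ℕ) : ℤ) := by exact_mod_cast hdv1
    have h5 := Int.dvd_coe_gcd h3 h4
    rw [h2] at h5
    have h6 : q₀ ∣ 1 := by exact_mod_cast h5
    exact hq₀.one_lt.ne' (Nat.dvd_one.1 h6)
  obtain ⟨t, ht⟩ : ∃ t, t = Nat.find hex := ⟨_, rfl⟩
  obtain ⟨ht2, htn, htg⟩ := Nat.find_spec hex
  rw [← ht] at ht2 htn htg
  have hone : ∀ n : ℕ, 2 ≤ n → n < t → Int.gcd (a (n - 1)) ((n + b n : ℕ) : ℤ) = 1 := by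
    intro n h1 h2
    by_contra h3
    rw [ht] at h2
    exact Nat.find_min hex h2 ⟨h1, by omega, h3⟩
  have h1 := hwalk t (by omega) hone (t - 1) (by omega) (by omega)
  have e : ((t - 1 : ℕ) : ℤ) = (t : ℤ) - 1 := by omega
  have hprev : a (t - 1) = (N : ℤ) - 4 - t := by rw [h1, e]; ring
  have htN : (t : ℤ) + 5 ≤ N := by exact_mod_cast (by omega : t + 5 ≤ N)
  have hpos : 0 < a (t - 1) := by rw [hprev]; linarith
  obtain ⟨d, hd⟩ : ∃ d, d = Int.gcd (a (t - 1)) ((t + b t : ℕ) : ℤ) := ⟨_, rfl⟩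
  have h3 := ha.2 t ht2
  rw [← hd] at h3 htg
  have hdpos : 0 < d := by rw [hd]; exact Int.gcd_pos_of_ne_zero_left _ hpos.ne'
  have hyd : y < d := by
    obtain ⟨q, hq, hqd⟩ := Nat.exists_prime_and_dvd htg
    refine lt_of_lt_of_le (hy q hq ?_) (Nat.le_of_dvd hdpos hqd)
    have hqa : (q : ℤ) ∣ a (t - 1) := by
      have h1 : (d : ℤ) ∣ a (t - 1) := by rw [hd]; exact Int.gcd_dvd_left _ _
      exact (Int.natCast_dvd_natCast.2 hqd).trans h1
    have hqb : (q : ℤ) ∣ ((t + b t : ℕ) : ℤ) := by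
      have h1 : (d : ℤ) ∣ ((t + b t : ℕ) : ℤ) := by rw [hd]; exact Int.gcd_dvd_right _ _
      exact (Int.natCast_dvd_natCast.2 hqd).trans h1
    have hsum := dvd_add hqa hqb
    rw [hprev] at hsum
    rcases (by omega : t % 3 = 0 ∨ t % 3 = 1 ∨ t % 3 = 2) with h9 | h9 | h9
    · left
      have hbt : b t = 0 := by unfold b; rw [if_neg (by omega), if_neg (by omega)]
      rw [hbt] at hsum
      have e2 : (N : ℤ) - 4 - t + ((t + 0 : ℕ) : ℤ) = ((N - 4 : ℕ) : ℤ) := by omega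
      rw [e2] at hsum
      exact_mod_cast hsum
    · right; left
      have hbt : b t = 2 := by unfold b; rw [if_pos h9]
      rw [hbt] at hsum
      have e2 : (N : ℤ) - 4 - t + ((t + 2 : ℕ) : ℤ) = ((N - 2 : ℕ) : ℤ) := by omega
      rw [e2] at hsum
      exact_mod_cast hsum
    · right; right
      have hbt : b t = 6 := by unfold b; rw [if_neg (by omega), if_pos h9]
      rw [hbt] at hsum
      have e2 : (N : ℤ) - 4 - t + ((t + 6 : ℕ) : ℤ) = ((N + 2 : ℕ) : ℤ) := by omega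
      rw [e2] at hsum
      exact_mod_cast hsum
  have hda : (d : ℤ) ≤ a (t - 1) := by
    rw [hd]
    exact Int.le_of_dvd hpos (Int.gcd_dvd_left _ _)
  have hat : 0 ≤ a t := by rw [h3]; linarith
  have h4 := tail a 1 t f (by omega) hat (fun n hn hp => stepB ha n (by omega) hp) hf
  rw [h3, hprev] at h4
  have : ((f + y + 5 : ℕ) : ℤ) ≤ N := by
    push_cast
    have : (y : ℤ) + 1 ≤ d := by exact_mod_cast hyd
    linarith
  exact_mod_cast this

end Pool.Agent.X32.Dev
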