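import Pool.Agent.TH464.PW.Input

/-!
# Rough values of a system of polynomials in short intervals, lower bound with the level
-/

set_option autoImplicit false

namespace Pool.Agent.X32.Dev

open Polynomial Finset Filter
open Pool.Agent.W123.RP Pool.Agent.H373R2.T7 Pool.Agent.W123.RU Pool.Agent.W123.RU.Poly
open Pool.Agent.TH464.PW

open Classical in
/-- in every interval `(X, X + Y]` many values of the system have no prime factor up to `Y ^ (1 / r)`, and the constant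
grows like `r ^ k` -/
theorem rough_many {ι : Type} [Fintype ι] [Nonempty ι] (f : ι → ℤ[X]) (hf : Sys f) :
    ∃ v : ℝ, 0 < v ∧ ∃ r₀ : ℕ, 2 ≤ r₀ ∧ ∀ r : ℕ, r₀ ≤ r → ∃ Y₀ : ℕ, ∀ Y X : ℕ, Y₀ ≤ Y → Y ≤ X →
      ∃ S : Finset ℕ, S ⊆ Finset.Ioc X (X + Y) ∧ (∀ m ∈ S, ∀ i, ∀ p : ℕ, p.Prime →
          (p : ℤ) ∣ (f i).eval (m : ℤ) → (Y : ℝ) ^ (1 / (r : ℝ)) < p) ∧
        v * (r : ℝ) ^ (Fintype.card ι) * Y / Real.log Y ^ (Fintype.card ι) ≤ (S.card : ℝ) := by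
  obtain ⟨k, hk⟩ : ∃ k, k = Fintype.card ι := ⟨_, rfl⟩
  have hk1 : 1 ≤ k := by rw [hk]; exact Fintype.card_pos
  rw [← hk]
  obtain ⟨c, hc, hQ⟩ := exists_c f hf
  obtain ⟨v, Cv, hv, hCv, hV⟩ := V_bounds f hf
  rw [← hk] at hV
  obtain ⟨K2, hK2, hlow⟩ := rough_lower c hc
  refine ⟨v / 2, by positivity, K2, hK2, ?_⟩
  intro r hr
  have hr2 : 2 ≤ r := hK2.trans hr
  have hrr : (2 : ℝ) ≤ r := by exact_mod_cast hr2
  have hrpos : (0 : ℝ) < r := by linarith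
  obtain ⟨Y2, hY2⟩ := eventually_atTop.1 (hlow r hr (k + 1))
  have hXr : Tendsto (fun X : ℕ => (X : ℝ)) atTop atTop := tendsto_natCast_atTop_atTop
  have hpow : Tendsto (fun X : ℕ => (X : ℝ) ^ (1 / (r : ℝ))) atTop atTop :=
    (tendsto_rpow_atTop (by positivity)).comp hXr
  have hlogX : Tendsto (fun X : ℕ => Real.log (X : ℝ)) atTop atTop := Real.tendsto_log_atTop.comp hXr
  obtain ⟨Y3, hY3⟩ := eventually_atTop.1 ((hpow.eventually_ge_atTop 3).and
    (hlogX.eventually_ge_atTop (1 / v + 1)))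
  refine ⟨max (max Y2 Y3) 1, ?_⟩
  intro Y X hY hYX
  have hYa : Y2 ≤ Y := (le_max_left _ _).trans ((le_max_left _ _).trans hY)
  have hYb : Y3 ≤ Y := (le_max_right _ _).trans ((le_max_left _ _).trans hY)
  have hYc : 1 ≤ Y := (le_max_right _ _).trans hY
  obtain ⟨h3, hlv⟩ := hY3 Y hYb
  have hY1 : (1 : ℝ) ≤ Y := by exact_mod_cast hYc
  have hY0 : (0 : ℝ) < Y := by linarith
  have hv1 : 0 < 1 / v := by positivity
  have hlog1 : 1 ≤ Real.log Y := by linarith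
  have hlog0 : 0 < Real.log Y := by linarith
  have hvlog : 1 ≤ v * Real.log Y := by
    have : 1 / v ≤ Real.log Y := by linarith
    rw [div_le_iff₀ hv] at this
    linarith
  obtain ⟨z, hz⟩ : ∃ z, z = ⌊(Y : ℝ) ^ (1 / (r : ℝ))⌋₊ := ⟨_, rfl⟩
  have hz3 : 3 ≤ z := by rw [hz]; exact Nat.le_floor (by exact_mod_cast h3)
  have hzle : (z : ℝ) ≤ (Y : ℝ) ^ (1 / (r : ℝ)) := by rw [hz]; exact Nat.floor_le (by positivity)
  have hz3r : (3 : ℝ) ≤ z := by exact_mod_cast hz3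
  have hlz0 : 0 < Real.log z := Real.log_pos (by linarith)
  have hlz : Real.log z ≤ Real.log Y / r := by
    have h1 := Real.log_le_log (by linarith) hzle
    rw [Real.log_rpow hY0] at h1
    calc Real.log z ≤ 1 / (r : ℝ) * Real.log Y := h1
      _ = _ := by ring
  have hVz : v * (r : ℝ) ^ k / Real.log Y ^ k ≤ Vq (Q f) z := by
    refine le_trans ?_ (hV z hz3).1
    have h1 : Real.log z ^ k ≤ (Real.log Y / r) ^ k := pow_le_pow_left₀ hlz0.le hlz k
    calc v * (r : ℝ) ^ k / Real.log Y ^ k = v / (Real.log Y / r) ^ k := by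
          rw [div_pow]; field_simp
      _ ≤ v / Real.log z ^ k := by gcongr
  have hVz2 : 1 / Real.log Y ^ (k + 1) ≤ Vq (Q f) z := by
    refine le_trans ?_ hVz
    rw [div_le_div_iff₀ (by positivity) (by positivity), one_mul]
    have h1 : (1 : ℝ) ≤ (r : ℝ) ^ k := one_le_pow₀ (by linarith)
    calc Real.log Y ^ k = 1 * Real.log Y ^ k * 1 := by ring
      _ ≤ (v * Real.log Y) * Real.log Y ^ k * (r : ℝ) ^ k := by gcongr
      _ = v * (r : ℝ) ^ k * Real.log Y ^ (k + 1) := by ring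
  obtain ⟨s, hs⟩ : ∃ s, s = X - Y := ⟨_, rfl⟩
  have h5 := hY2 Y hYa (Qs f s) (perB_Qs f c hQ s) (by rw [Vq_Qs f c hQ, ← hz]; exact hVz2)
  rw [Vq_Qs f c hQ, ← hz] at h5
  have h6 : v / 2 * (r : ℝ) ^ k * Y / Real.log Y ^ k ≤ Vq (Q f) z * Y / 2 := by
    calc v / 2 * (r : ℝ) ^ k * Y / Real.log Y ^ k = v * (r : ℝ) ^ k / Real.log Y ^ k * Y / 2 := by ring
      _ ≤ _ := by gcongr
  refine ⟨(Finset.Ioc X (X + Y)).filter (fun m : ℕ => ∀ i, ∀ p : ℕ, p.Prime →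
          (p : ℤ) ∣ (f i).eval (m : ℤ) → (Y : ℝ) ^ (1 / (r : ℝ)) < p), filter_subset _ _,
    fun m hm => (mem_filter.1 hm).2, h6.trans (h5.trans ?_)⟩
  rw [Nat.cast_le]
  apply Finset.card_le_card_of_injOn (fun n => n + s)
  · intro n hn
    rw [mem_coe, mem_filter, mem_Ioc] at hn
    show n + s ∈ _
    rw [mem_coe, mem_filter, mem_Ioc]
    refine ⟨⟨by omega, by omega⟩, ?_⟩
    intro i p hp hd
    by_contra hcon
    push Not at hcon
    have hpz : p ∈ pz z := by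
      rw [mem_pz]
      exact ⟨by rw [hz]; exact Nat.le_floor hcon, hp⟩
    exact hn.2 p hpz ⟨i, hd⟩
  · intro n _ n' _ h
    simp only at h
    omega

end Pool.Agent.X32.Dev
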