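import Pool.Agent.X58.IV.Prm
import Pool.Agent.H197R2.PG2
import Pool.Agent.H197R2.PG4
import Pool.Agent.Helper564.Desc.P

/-!
# Upper bounds for prime pairs and prime triples in short intervals
-/

set_option autoImplicit false

namespace Pool.Agent.X32.Dev

open Finset Filter Topology
open Pool.Agent.Y843.HS (Pr VV Sv)
open Pool.Agent.X58.IV

/-- three residue classes -/
def Z3 (u v w : ℤ) (p : ℕ) : Finset ℕ := {(u % p).toNat, (v % p).toNat, (w % p).toNat}

lemma toNat_lt (u : ℤ) (p : ℕ) (hp : 0 < p) : (u % p).toNat < p := by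
  have h1 := Int.emod_lt_of_pos u (by exact_mod_cast hp : (0 : ℤ) < p)
  have h2 := Int.emod_nonneg u (by exact_mod_cast hp.ne' : (p : ℤ) ≠ 0)
  omega

lemma toNat_eq (u v : ℤ) (p : ℕ) (hp : 0 < p) (h : (u % p).toNat = (v % p).toNat) : (p : ℤ) ∣ u - v := by
  have h1 := Int.emod_nonneg u (by exact_mod_cast hp.ne' : (p : ℤ) ≠ 0)
  have h2 := Int.emod_nonneg v (by exact_mod_cast hp.ne' : (p : ℤ) ≠ 0)
  have h3 : u % p = v % p := by omega
  exact Int.ModEq.dvd (Int.ModEq.symm h3)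

lemma mem_Z3 (u v w : ℤ) (p n : ℕ) (hp : 0 < p) (h : n % p ∈ Z3 u v w p) :
    (p : ℤ) ∣ (n : ℤ) - u ∨ (p : ℤ) ∣ (n : ℤ) - v ∨ (p : ℤ) ∣ (n : ℤ) - w := by
  unfold Z3 at h
  simp only [mem_insert, mem_singleton] at h
  have key : ∀ u : ℤ, n % p = (u % p).toNat → (p : ℤ) ∣ (n : ℤ) - u := by
    intro u hu
    have h1 := Int.emod_nonneg u (by exact_mod_cast hp.ne' : (p : ℤ) ≠ 0)
    have h2 : ((n % p : ℕ) : ℤ) = u % p := by omega
    rw [Int.natCast_mod] at h2
    exact Int.ModEq.dvd (Int.ModEq.symm h2)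
  rcases h with h | h | h
  · exact Or.inl (key u h)
  · exact Or.inr (Or.inl (key v h))
  · exact Or.inr (Or.inr (key w h))

lemma mert3 (Z : ℕ → Finset ℕ) (hZ : Adm 3 Z) (h3 : ∀ p : ℕ, p.Prime → 5 ≤ p → (Z p).card = 3) :
    ∃ C : ℝ, 0 < C ∧ ∀ y : ℕ, 2 ≤ y → VV Z 0 y ≤ C / Real.log y ^ 3 := by
  obtain ⟨C, hC, h⟩ := Pool.Agent.Y840.PT.mert
  refine ⟨64 * C ^ 3, by positivity, fun y hy => ?_⟩
  have h1 : VV Z 0 y ≤ ∏ p ∈ Pr 0 y, ((if p < 5 then (8 : ℝ) else 1) * (1 - 1 / (p : ℝ)) ^ 3) := by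
    unfold VV
    apply Finset.prod_le_prod
    · intro p hp
      have hpp := (mem_filter.1 hp).2
      have hp0 : (0 : ℝ) < p := by exact_mod_cast hpp.pos
      exact le_trans (by positivity) (fac hZ hpp).1
    · intro p hp
      have hpp := (mem_filter.1 hp).2
      have hp0 : (0 : ℝ) < p := by exact_mod_cast hpp.pos
      have hp2 : (2 : ℝ) ≤ p := by exact_mod_cast hpp.two_le
      split_ifs with h5
      · have h6 := (fac hZ hpp).2
        have h7 : (1 : ℝ) / 2 ≤ 1 - 1 / (p : ℝ) := by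
          have : 1 / (p : ℝ) ≤ 1 / 2 := one_div_le_one_div_of_le (by norm_num) hp2
          linarith
        have h8 : ((1 : ℝ) / 2) ^ 3 ≤ (1 - 1 / (p : ℝ)) ^ 3 := pow_le_pow_left₀ (by norm_num) h7 3
        have h9 : ((1 : ℝ) / 2) ^ 3 = 1 / 8 := by norm_num
        rw [h9] at h8
        linarith
      · rw [h3 p hpp (by omega), one_mul]
        have hx0 : (0 : ℝ) ≤ 1 / (p : ℝ) := by positivity
        have hx1 : 1 / (p : ℝ) ≤ 1 / 2 := one_div_le_one_div_of_le (by norm_num) hp2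
        obtain ⟨x, hx⟩ : ∃ x : ℝ, x = 1 / (p : ℝ) := ⟨_, rfl⟩
        have e : ((3 : ℕ) : ℝ) / p = 3 * x := by rw [hx]; push_cast; ring
        rw [e, ← hx]
        rw [← hx] at hx0 hx1
        nlinarith [mul_nonneg hx0 hx0, mul_nonneg (mul_nonneg hx0 hx0) (by linarith : (0 : ℝ) ≤ 3 - x)]
  refine h1.trans ?_
  rw [prod_mul_distrib, prod_pow]
  have h4 : ∏ p ∈ Pr 0 y, (if p < 5 then (8 : ℝ) else 1) ≤ 64 := by
    rw [prod_ite, prod_const_one, mul_one, prod_const]
    have hsub : (Pr 0 y).filter (fun p => p < 5) ⊆ {2, 3} := by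
      intro p hp
      rw [mem_filter] at hp
      have hpp := (mem_filter.1 hp.1).2
      have h9 := hp.2
      interval_cases p
      · exact absurd hpp (by norm_num)
      · exact absurd hpp (by norm_num)
      · simp
      · simp
      · exact absurd hpp (by norm_num)
    have hc := card_le_card hsub
    have hc2 : ((Pr 0 y).filter (fun p => p < 5)).card ≤ 2 := hc
    calc (8 : ℝ) ^ ((Pr 0 y).filter (fun p => p < 5)).card ≤ 8 ^ 2 :=
          pow_le_pow_right₀ (by norm_num) hc2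
      _ = 64 := by norm_num
  have h5 : ∏ p ∈ Pr 0 y, (1 - 1 / (p : ℝ)) ≤ C / Real.log y := h y hy
  have h6 : 0 ≤ ∏ p ∈ Pr 0 y, (1 - 1 / (p : ℝ)) := by
    apply prod_nonneg
    intro p hp
    have hpp := (mem_filter.1 hp).2
    have hp2 : (1 : ℝ) ≤ p := by exact_mod_cast hpp.one_lt.le
    have : 1 / (p : ℝ) ≤ 1 := by
      rw [div_le_one (by linarith)]; exact hp2
    linarith
  have h7 : (∏ p ∈ Pr 0 y, (1 - 1 / (p : ℝ))) ^ 3 ≤ (C / Real.log y) ^ 3 := pow_le_pow_left₀ h6 h5 3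
  calc _ ≤ 64 * (C / Real.log y) ^ 3 := by
        apply mul_le_mul h4 h7 (by positivity) (by norm_num)
    _ = _ := by rw [div_pow]; ring

/-- **upper bound for the number of prime triples in short intervals** -/
theorem triples_up : ∃ C : ℝ, 0 < C ∧ ∃ Y₀ : ℕ, ∀ A Y : ℕ, Y₀ ≤ Y → ∀ S : Finset ℕ,
    S ⊆ Ioc A (A + Y) → (∀ n ∈ S, Y ≤ 4 * n ∧ n.Prime ∧ (n + 2).Prime ∧ (n + 6).Prime) →
    (S.card : ℝ) ≤ C * Y / Real.log Y ^ 3 := by
  have hZ : Adm 3 (Z3 0 (-2) (-6)) := by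
    intro p hp
    refine ⟨card_le_three, ?_, ?_⟩
    · rcases Nat.lt_or_ge p 5 with h5 | h5
      · have h2 := hp.two_le
        interval_cases p
        · decide
        · decide
        · exact absurd hp (by norm_num)
      · exact lt_of_le_of_lt card_le_three (by omega)
    · intro c hc
      unfold Z3 at hc
      simp only [mem_insert, mem_singleton] at hc
      rcases hc with rfl | rfl | rfl
      · exact toNat_lt _ _ hp.pos
      · exact toNat_lt _ _ hp.pos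
      · exact toNat_lt _ _ hp.pos
  obtain ⟨C, hC, hV⟩ := mert3 (Z3 0 (-2) (-6)) hZ (by
    intro p hp h5
    unfold Z3
    have hodd : ∀ d : ℤ, (p : ℤ) ∣ d → d ∣ 24 → False := by
      intro d h1 h2
      have h3 : (p : ℤ) ∣ 24 := h1.trans h2
      have h4 : p ∣ 24 := by exact_mod_cast h3
      have h6 : p ∣ 2 ^ 3 * 3 := by norm_num; exact h4
      rcases (Nat.Prime.dvd_mul hp).1 h6 with h7 | h7
      · have := (Nat.prime_dvd_prime_iff_eq hp Nat.prime_two).1 (hp.dvd_of_dvd_pow h7)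
        omega
      · have := (Nat.prime_dvd_prime_iff_eq hp Nat.prime_three).1 h7
        omega
    rw [card_eq_three]
    refine ⟨_, _, _, ?_, ?_, ?_, rfl⟩
    · intro h
      exact hodd _ (toNat_eq _ _ p hp.pos h) (by norm_num)
    · intro h
      exact hodd _ (toNat_eq _ _ p hp.pos h) (by norm_num)
    · intro h
      exact hodd _ (toNat_eq _ _ p hp.pos h) (by norm_num))
  obtain ⟨C', hC', X₀, hup⟩ := upZ 3 (1 / 2) (by norm_num)
  have hXr : Tendsto (fun X : ℕ => (X : ℝ)) atTop atTop := tendsto_natCast_atTop_atTop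
  have hpow : Tendsto (fun X : ℕ => (X : ℝ) ^ (1 / 4 : ℝ)) atTop atTop :=
    (tendsto_rpow_atTop (by norm_num)).comp hXr
  obtain ⟨X₁, hX₁⟩ := eventually_atTop.1 (hpow.eventually_ge_atTop 4)
  refine ⟨C' * (C * 4 ^ 3), by positivity, max (max X₀ X₁) 2, ?_⟩
  intro A Y hY S hS hSp
  have hYa : X₀ ≤ Y := (le_max_left _ _).trans ((le_max_left _ _).trans hY)
  have hYb : X₁ ≤ Y := (le_max_right _ _).trans ((le_max_left _ _).trans hY)
  have hYc : 2 ≤ Y := (le_max_right _ _).trans hY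
  have hY2 : (2 : ℝ) ≤ Y := by exact_mod_cast hYc
  have hY0 : (0 : ℝ) < Y := by linarith
  have h4 := hX₁ Y hYb
  have hsq : (Y : ℝ) ^ (1 / 4 : ℝ) * (Y : ℝ) ^ (1 / 4 : ℝ) = (Y : ℝ) ^ (1 / 2 : ℝ) := by
    rw [← Real.rpow_add hY0]; norm_num
  have hsq2 : (Y : ℝ) ^ (1 / 2 : ℝ) * (Y : ℝ) ^ (1 / 2 : ℝ) = Y := by
    rw [← Real.rpow_add hY0]; norm_num
  have h16 : 16 ≤ (Y : ℝ) ^ (1 / 2 : ℝ) := by rw [← hsq]; nlinarith
  have hhalf : (Y : ℝ) ^ (1 / 2 : ℝ) < Y / 4 := by nlinarith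
  have h5 := hup Y A hYa (Z3 0 (-2) (-6)) hZ S hS (by
    intro n hn p hp hpY hmem
    obtain ⟨h6, h7, h8, h9⟩ := hSp n hn
    have hn4 : (Y : ℝ) / 4 ≤ n := by
      have : (Y : ℝ) ≤ 4 * n := by exact_mod_cast h6
      linarith
    have hpn : p < n := by
      have : (p : ℝ) < n := by linarith
      exact_mod_cast this
    rcases mem_Z3 0 (-2) (-6) p n hp.pos hmem with h | h | h
    · have h' : p ∣ n := by
        have e : (n : ℤ) - 0 = n := by ring
        rw [e] at h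
        exact_mod_cast h
      have := (Nat.prime_dvd_prime_iff_eq hp h7).1 h'
      omega
    · have h' : p ∣ n + 2 := by
        have e : (n : ℤ) - (-2) = ((n + 2 : ℕ) : ℤ) := by push_cast; ring
        rw [e] at h
        exact_mod_cast h
      have := (Nat.prime_dvd_prime_iff_eq hp h8).1 h'
      omega
    · have h' : p ∣ n + 6 := by
        have e : (n : ℤ) - (-6) = ((n + 6 : ℕ) : ℤ) := by push_cast; ring
        rw [e] at h
        exact_mod_cast h
      have := (Nat.prime_dvd_prime_iff_eq hp h9).1 h'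
      omega)
  refine h5.trans ?_
  obtain ⟨z, hz⟩ : ∃ z, z = ⌊(Y : ℝ) ^ (1 / 2 : ℝ)⌋₊ := ⟨_, rfl⟩
  have hz16 : 16 ≤ z := by rw [hz]; exact Nat.le_floor (by exact_mod_cast h16)
  have hVz := hV z (by omega)
  rw [← hz]
  have hzge : (Y : ℝ) ^ (1 / 4 : ℝ) ≤ z := by
    have h6 : (Y : ℝ) ^ (1 / 2 : ℝ) < z + 1 := by rw [hz]; exact Nat.lt_floor_add_one _
    nlinarith
  have hlog : Real.log Y / 4 ≤ Real.log z := by
    have h7 := Real.log_le_log (by positivity) hzge
    rw [Real.log_rpow hY0] at h7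
    linarith
  have hlog0 : 0 < Real.log Y := Real.log_pos (by linarith)
  have hpow3 : (Real.log Y / 4) ^ 3 ≤ Real.log z ^ 3 := pow_le_pow_left₀ (by positivity) hlog 3
  calc C' * Y * VV (Z3 0 (-2) (-6)) 0 z ≤ C' * Y * (C / Real.log z ^ 3) := by gcongr
    _ ≤ C' * Y * (C / (Real.log Y / 4) ^ 3) := by gcongr
    _ = _ := by field_simp

/-- **the number of the `N` with primes `N - E` and `N + E` for some `E < H`** -/
theorem pairs_up : ∃ C : ℝ, 1 ≤ C ∧ ∃ Y₀ : ℕ, ∀ X Y : ℕ, Y₀ ≤ Y → Y ≤ X → ∀ H : ℕ,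
    8 * (H : ℝ) ≤ (Y : ℝ) ^ (1 / 16 : ℝ) → ∀ S : Finset ℕ, S ⊆ Ioc X (X + Y) →
    (∀ N ∈ S, ∃ E : ℕ, E ≤ H ∧ E ≤ N ∧ (N - E).Prime ∧ (N + E).Prime) →
    (S.card : ℝ) ≤ C * (1 + H / Real.log Y) * Y / Real.log Y := by
  classical
  obtain ⟨C1, hC1, X₁, h1⟩ := primes_up
  obtain ⟨C2, hC2, u0, h2⟩ := Pool.Agent.H197R2.PG.pair_sieve_sharp
  refine ⟨C1 + 1 + C2 * 5, by linarith, max (max X₁ u0) 3, ?_⟩
  intro X Y hY hYX H hH S hS hSp
  have hYa : X₁ ≤ Y := (le_max_left _ _).trans ((le_max_left _ _).trans hY)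
  have hYb : u0 ≤ Y := (le_max_right _ _).trans ((le_max_left _ _).trans hY)
  have hYc : 3 ≤ Y := (le_max_right _ _).trans hY
  have hY3 : (3 : ℝ) ≤ Y := by exact_mod_cast hYc
  have hY0 : (0 : ℝ) < Y := by linarith
  have hlog0 : 0 < Real.log Y := Real.log_pos (by linarith)
  have hHY : H ≤ Y := by
    have h3 : (Y : ℝ) ^ (1 / 16 : ℝ) ≤ (Y : ℝ) ^ (1 : ℝ) :=
      Real.rpow_le_rpow_of_exponent_le (by linarith) (by norm_num)
    rw [Real.rpow_one] at h3
    have h4 : (H : ℝ) ≤ Y := by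
      have : (0 : ℝ) ≤ H := Nat.cast_nonneg _
      linarith
    exact_mod_cast h4
  have hcov : S ⊆ (Ioc X (X + Y)).filter Nat.Prime ∪ (Icc 1 H).biUnion (fun E =>
      (S.filter (fun N => E ≤ N ∧ (N - E).Prime ∧ (N + E).Prime))) := by
    intro N hN
    obtain ⟨E, h3, h4, h5, h6⟩ := hSp N hN
    rw [mem_union]
    rcases Nat.eq_zero_or_pos E with h7 | h7
    · left
      subst h7
      rw [mem_filter]
      exact ⟨hS hN, by simpa using h6⟩
    · right
      rw [mem_biUnion]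
      exact ⟨E, by rw [mem_Icc]; omega, by rw [mem_filter]; exact ⟨hN, h4, h5, h6⟩⟩
  have hterm : ∀ E ∈ Icc 1 H, ((S.filter (fun N => E ≤ N ∧ (N - E).Prime ∧ (N + E).Prime)).card : ℝ) ≤
      C2 * (9 / 4 * Pool.Agent.H197R2.PG.gg E) * Y / Real.log Y ^ 2 := by
    intro E hE
    rw [mem_Icc] at hE
    have hEH : (E : ℝ) ≤ H := by exact_mod_cast hE.2
    have h3 := h2 (2 * E) (X - E) Y (by omega) hYb (by push_cast; linarith)
    have h4 : ((S.filter (fun N => E ≤ N ∧ (N - E).Prime ∧ (N + E).Prime)).card : ℝ) ≤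
        (((Finset.Ioc (X - E) (X - E + Y)).filter (fun n => n.Prime ∧ (n + 2 * E).Prime)).card : ℝ) := by
      rw [Nat.cast_le]
      apply card_le_card_of_injOn (fun N => N - E)
      · intro N hN
        rw [mem_coe, mem_filter] at hN
        obtain ⟨h5, h6, h7, h8⟩ := hN
        have h9 := hS h5
        rw [mem_Ioc] at h9
        show N - E ∈ _
        rw [mem_coe, mem_filter, mem_Ioc]
        have e : N - E + 2 * E = N + E := by omega
        refine ⟨⟨by omega, by omega⟩, h7, ?_⟩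
        rw [e]; exact h8
      · intro N hN N' hN' h
        rw [mem_coe, mem_filter] at hN hN'
        have := hN.2.1
        have := hN'.2.1
        simp only at h
        omega
    refine h4.trans (h3.trans ?_)
    have h5 := Pool.Agent.H197R2.PG.gg_two_mul_le (2 * E) (by omega)
    have h6 := Pool.Agent.H197R2.PG.gg_two_mul_le E (by omega)
    have h7 : Pool.Agent.H197R2.PG.gg (2 * (2 * E)) ≤ 9 / 4 * Pool.Agent.H197R2.PG.gg E := by linarith
    have hC20 : 0 ≤ C2 := by linarith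
    gcongr
  have hsum : ∑ E ∈ Icc 1 H, Pool.Agent.H197R2.PG.gg E ≤ 2 * (H : ℝ) :=
    Pool.Agent.Descents.P.nice_count H
  have h8 := h1 Y X hYa hYX
  have h9 : (S.card : ℝ) ≤ C1 * Y / Real.log Y + C2 * 5 * (H * Y / Real.log Y ^ 2) := by
    calc (S.card : ℝ) ≤ (((Ioc X (X + Y)).filter Nat.Prime ∪ (Icc 1 H).biUnion (fun E =>
          (S.filter (fun N => E ≤ N ∧ (N - E).Prime ∧ (N + E).Prime)))).card : ℝ) := by
          exact_mod_cast card_le_card hcov
      _ ≤ (((Ioc X (X + Y)).filter Nat.Prime).card : ℝ) +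
          (((Icc 1 H).biUnion (fun E => (S.filter (fun N => E ≤ N ∧ (N - E).Prime ∧ (N + E).Prime)))).card : ℝ) := by
          exact_mod_cast card_union_le _ _
      _ ≤ C1 * Y / Real.log Y +
          ∑ E ∈ Icc 1 H, ((S.filter (fun N => E ≤ N ∧ (N - E).Prime ∧ (N + E).Prime)).card : ℝ) := by
          gcongr
          exact_mod_cast card_biUnion_le
      _ ≤ C1 * Y / Real.log Y +
          ∑ E ∈ Icc 1 H, C2 * (9 / 4 * Pool.Agent.H197R2.PG.gg E) * Y / Real.log Y ^ 2 := by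
          gcongr with E hE
          exact hterm E hE
      _ = C1 * Y / Real.log Y + C2 * (9 / 4) * Y / Real.log Y ^ 2 * ∑ E ∈ Icc 1 H, Pool.Agent.H197R2.PG.gg E := by
          rw [mul_sum]
          congr 1
          apply sum_congr rfl
          intro E _
          ring
      _ ≤ C1 * Y / Real.log Y + C2 * (9 / 4) * Y / Real.log Y ^ 2 * (2 * H) := by
          have hC20 : 0 ≤ C2 := by linarith
          gcongr
      _ ≤ C1 * Y / Real.log Y + C2 * 5 * (H * Y / Real.log Y ^ 2) := by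
          have hC20 : 0 ≤ C2 := by linarith
          have h10 : 0 ≤ C2 * (H * Y / Real.log Y ^ 2) := by positivity
          have e : C2 * (9 / 4) * Y / Real.log Y ^ 2 * (2 * H) = 9 / 2 * (C2 * (H * Y / Real.log Y ^ 2)) := by ring
          rw [e]
          linarith
  refine h9.trans ?_
  have e : (C1 + 1 + C2 * 5) * (1 + H / Real.log Y) * Y / Real.log Y =
      (C1 + 1 + C2 * 5) * (Y / Real.log Y) + (C1 + 1 + C2 * 5) * (H * Y / Real.log Y ^ 2) := by
    field_simp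
  rw [e]
  have a1 : 0 ≤ Y / Real.log Y := by positivity
  have a2 : 0 ≤ (H : ℝ) * Y / Real.log Y ^ 2 := by positivity
  have e2 : C1 * Y / Real.log Y = C1 * (Y / Real.log Y) := by ring
  rw [e2]
  nlinarith [mul_nonneg (by linarith : (0 : ℝ) ≤ C2) a1, mul_nonneg hC1.le a2]

end Pool.Agent.X32.Dev
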