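import Pool.Agent.X32.Dev.Det
import Pool.Agent.X32.Dev.Low
import Pool.Agent.X32.Dev.Up
import Pool.Agent.Results.MP_b5e119_nt.TwoThirds

/-!
# The gcd recursion for Goldbach pairs: typical and large deviations
-/

set_option autoImplicit false

namespace Pool.Agent.X32.Dev

open Finset Filter Polynomial

/-- the system with the polynomial `X` -/
lemma sysX : Pool.Agent.W123.RU.Poly.Sys (fun _ : Fin 1 => (X : ℤ[X])) where
  irr := fun _ => irreducible_X
  deg := fun _ => by rw [natDegree_X]; norm_num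
  lead := fun _ => by rw [leadingCoeff_X]; norm_num
  inj := fun i j _ => Subsingleton.elim i j
  adm := by
    intro p hp
    refine ⟨1, fun i h => ?_⟩
    rw [eval_X] at h
    exact hp.one_lt.ne' (Nat.dvd_one.1 (by exact_mod_cast h))

/-- many composite integers without small prime factors in every interval -/
theorem many_rough : ∃ c : ℝ, 0 < c ∧ ∃ Y₀ : ℕ, ∀ Y X : ℕ, Y₀ ≤ Y → Y ≤ X →
    (Y : ℝ) / Real.log Y ≤ (((Finset.Ioc X (X + Y)).filter (fun N : ℕ => ¬ N.Prime ∧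
      (Y : ℝ) ^ c ≤ N.minFac)).card : ℝ) := by
  classical
  obtain ⟨v, hv, r₀, hr₀, h⟩ := rough_many (fun _ : Fin 1 => (X : ℤ[X])) sysX
  obtain ⟨C, hC, X₀, hup⟩ := Pool.Agent.X58.IV.primes_up
  obtain ⟨r, hr1, hr2⟩ : ∃ r : ℕ, r₀ ≤ r ∧ (C + 1) / v ≤ r :=
    ⟨max r₀ ⌈(C + 1) / v⌉₊, le_max_left _ _, (Nat.le_ceil _).trans (by exact_mod_cast le_max_right _ _)⟩
  obtain ⟨Y₁, hY₁⟩ := h r hr1
  have hr : (0 : ℝ) < r := by exact_mod_cast (by omega : 0 < r)
  refine ⟨1 / r, by positivity, max (max Y₁ X₀) 3, ?_⟩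
  intro Y X hY hYX
  have hYa : Y₁ ≤ Y := (le_max_left _ _).trans ((le_max_left _ _).trans hY)
  have hYb : X₀ ≤ Y := (le_max_right _ _).trans ((le_max_left _ _).trans hY)
  have hYc : 3 ≤ Y := (le_max_right _ _).trans hY
  have hY3 : (3 : ℝ) ≤ Y := by exact_mod_cast hYc
  have hlog0 : 0 < Real.log Y := Real.log_pos (by linarith)
  obtain ⟨S, hS1, hS2, h1⟩ := hY₁ Y X hYa hYX
  have h2 := hup Y X hYb hYX
  rw [Fintype.card_fin, pow_one, pow_one] at h1
  have h3 : S ⊆ (Finset.Ioc X (X + Y)).filter Nat.Prime ∪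
        (Finset.Ioc X (X + Y)).filter (fun N : ℕ => ¬ N.Prime ∧ (Y : ℝ) ^ (1 / (r : ℝ)) ≤ N.minFac) := by
    intro N hN
    rw [mem_union, mem_filter, mem_filter]
    by_cases hp : N.Prime
    · exact Or.inl ⟨hS1 hN, hp⟩
    · refine Or.inr ⟨hS1 hN, hp, ?_⟩
      have hN1 := (mem_Ioc.1 (hS1 hN)).1
      refine (hS2 N hN 0 N.minFac (Nat.minFac_prime (by omega)) ?_).le
      rw [eval_X]
      exact_mod_cast Nat.minFac_dvd N
  have h5 := (card_le_card h3).trans (card_union_le _ _)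
  have h6 : v * r * Y / Real.log Y ≤ (((Finset.Ioc X (X + Y)).filter Nat.Prime).card : ℝ) +
      (((Finset.Ioc X (X + Y)).filter (fun N : ℕ => ¬ N.Prime ∧
        (Y : ℝ) ^ (1 / (r : ℝ)) ≤ N.minFac)).card : ℝ) := by
    refine h1.trans ?_
    exact_mod_cast h5
  have h7 : (C + 1) * (Y / Real.log Y) ≤ v * r * Y / Real.log Y := by
    rw [div_le_iff₀ hv] at hr2
    have : 0 ≤ (Y : ℝ) / Real.log Y := by positivity
    calc (C + 1) * (Y / Real.log Y) ≤ (r * v) * (Y / Real.log Y) := by gcongr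
      _ = _ := by ring
  have h8 : C * Y / Real.log Y = C * (Y / Real.log Y) := by ring
  rw [h8] at h2
  linarith

/-- many products of two primes -/
theorem many_semi : ∃ κ : ℝ, 0 < κ ∧ ∃ y₀ : ℕ, ∀ y X : ℕ, y₀ ≤ y → 64 * y ^ 2 ≤ X →
    κ * X / (Real.log X * Real.log y) ≤ (((Finset.Icc 1 X).filter (fun N : ℕ => 3 ≤ N ∧ ¬ N.Prime ∧
      y ≤ N.minFac)).card : ℝ) := by
  classical
  obtain ⟨x₀, h⟩ := Pool.Agent.X58.IV.primes_low
  refine ⟨1 / 64, by norm_num, max x₀ 3, ?_⟩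
  intro y X hy hyX
  have hya : x₀ ≤ y := (le_max_left _ _).trans hy
  have hyb : 3 ≤ y := (le_max_right _ _).trans hy
  obtain ⟨x, hx⟩ : ∃ x, x = X / (4 * y) := ⟨_, rfl⟩
  have h4y : 0 < 4 * y := by omega
  have hxy : 16 * y ≤ x := by
    rw [hx, Nat.le_div_iff_mul_le h4y]
    nlinarith
  have hxX : x * (4 * y) ≤ X := by rw [hx]; exact Nat.div_mul_le_self X (4 * y)
  have hXx : X < (x + 1) * (4 * y) := by
    rw [hx, add_one_mul]
    exact Nat.lt_div_mul_add h4y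
  have h1 := h y hya
  have h2 := h x (by omega)
  obtain ⟨P, hP⟩ : ∃ P, P = (Ioc y (2 * y)).filter Nat.Prime := ⟨_, rfl⟩
  obtain ⟨Q, hQ⟩ : ∃ Q, Q = (Ioc x (2 * x)).filter Nat.Prime := ⟨_, rfl⟩
  rw [← hP] at h1
  rw [← hQ] at h2
  have hPm : ∀ p ∈ P, y < p ∧ p ≤ 2 * y ∧ p.Prime := by
    intro p hp
    rw [hP, mem_filter, mem_Ioc] at hp
    exact ⟨hp.1.1, hp.1.2, hp.2⟩
  have hQm : ∀ q ∈ Q, x < q ∧ q ≤ 2 * x ∧ q.Prime := by
    intro q hq
    rw [hQ, mem_filter, mem_Ioc] at hq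
    exact ⟨hq.1.1, hq.1.2, hq.2⟩
  have hmin : ∀ p ∈ P, ∀ q ∈ Q, (p * q).minFac = p := by
    intro p hp q hq
    obtain ⟨p1, p2, p3⟩ := hPm p hp
    obtain ⟨q1, q2, q3⟩ := hQm q hq
    have h3 := Nat.minFac_dvd (p * q)
    have h4 : (p * q).minFac.Prime := Nat.minFac_prime (by
      intro h5
      have := Nat.eq_one_of_mul_eq_one_right h5
      have := p3.one_lt
      omega)
    rcases (Nat.Prime.dvd_mul h4).1 h3 with h5 | h5
    · exact (Nat.prime_dvd_prime_iff_eq h4 p3).1 h5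
    · have h6 := (Nat.prime_dvd_prime_iff_eq h4 q3).1 h5
      have h7 : (p * q).minFac ≤ p := Nat.minFac_le_of_dvd p3.two_le (Dvd.intro _ rfl)
      omega
  have hcard : (P ×ˢ Q).card ≤ ((Finset.Icc 1 X).filter (fun N : ℕ => 3 ≤ N ∧ ¬ N.Prime ∧ y ≤ N.minFac)).card := by
    apply card_le_card_of_injOn (fun z : ℕ × ℕ => z.1 * z.2)
    · rintro ⟨p, q⟩ hpq
      rw [mem_coe, mem_product] at hpq
      obtain ⟨p1, p2, p3⟩ := hPm p hpq.1
      obtain ⟨q1, q2, q3⟩ := hQm q hpq.2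
      rw [mem_coe, mem_filter, mem_Icc]
      simp only
      have h3 : p * q ≤ 2 * y * (2 * x) := Nat.mul_le_mul p2 q2
      have h4 : 2 * y * (2 * x) = x * (4 * y) := by ring
      have h5 : 3 * 1 ≤ p * q := Nat.mul_le_mul (by omega) (by omega)
      refine ⟨⟨by omega, by omega⟩, by omega, Nat.not_prime_mul p3.one_lt.ne' q3.one_lt.ne', ?_⟩
      rw [hmin p hpq.1 q hpq.2]
      omega
    · rintro ⟨p, q⟩ hpq ⟨p', q'⟩ hpq' heq
      rw [mem_coe, mem_product] at hpq hpq'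
      simp only at heq
      have h3 : p = p' := by
        rw [← hmin p hpq.1 q hpq.2, ← hmin p' hpq'.1 q' hpq'.2, heq]
      subst h3
      have := (hPm p hpq.1).1
      have h4 : q = q' := Nat.eq_of_mul_eq_mul_left (by omega) heq
      rw [h4]
  rw [card_product] at hcard
  have hcard' : (P.card : ℝ) * Q.card ≤ (((Finset.Icc 1 X).filter (fun N : ℕ => 3 ≤ N ∧ ¬ N.Prime ∧
      y ≤ N.minFac)).card : ℝ) := by exact_mod_cast hcard
  refine le_trans ?_ hcard'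
  have hyr : (3 : ℝ) ≤ y := by exact_mod_cast hyb
  have hxr : (48 : ℝ) ≤ x := by exact_mod_cast (by omega : 48 ≤ x)
  have hXr : (48 : ℝ) ≤ X := by
    have : 48 ≤ X := by nlinarith
    exact_mod_cast this
  have hly : 0 < Real.log y := Real.log_pos (by linarith)
  have hlx : 0 < Real.log x := Real.log_pos (by linarith)
  have hxleX : (x : ℝ) ≤ X := by
    have : x ≤ X := by nlinarith
    exact_mod_cast this
  have hlX : Real.log x ≤ Real.log X := Real.log_le_log (by linarith) hxleX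
  have hXx' : (X : ℝ) ≤ 8 * (x * y) := by
    have h3 : X ≤ 8 * (x * y) := by
      have : (x + 1) * (4 * y) ≤ (2 * x) * (4 * y) := Nat.mul_le_mul_right _ (by omega)
      nlinarith
    exact_mod_cast h3
  calc 1 / 64 * (X : ℝ) / (Real.log X * Real.log y) ≤ 1 / 64 * (8 * (x * y)) / (Real.log x * Real.log y) := by
        gcongr
    _ ≤ y / (2 * Real.log y) * (x / (2 * Real.log x)) := by
        rw [div_mul_div_comm, div_le_div_iff₀ (by positivity) (by positivity)]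
        have : 0 < (x : ℝ) * y * (Real.log x * Real.log y) := by positivity
        nlinarith
    _ ≤ P.card * Q.card := by gcongr

lemma zeroA_le {N : ℕ} (hN : 3 ≤ N) {a : ℕ → ℤ} (ha : RecA N a) {g : ℕ}
    (hg : IsLeast {n : ℕ | 2 ≤ n ∧ a n = 0} g) : g + 1 ≤ N := by
  have hg1 : IsLeast {n : ℕ | 1 ≤ n ∧ a n = 0} g := by
    refine ⟨⟨by have := hg.1.1; omega, hg.1.2⟩, ?_⟩
    rintro n ⟨hn1, hn2⟩
    apply hg.2
    refine ⟨?_, hn2⟩
    by_contra hcon
    have : n = 1 := by omega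
    subst this
    rw [ha.1] at hn2
    omega
  have h := tail a 1 1 g le_rfl (by rw [ha.1]; omega) (fun n hn hp => stepA ha n hn hp) hg1
  rw [ha.1] at h
  push_cast at h
  omega

/-- the recursion with the parameter `N` is at most `N - H` steps long -/
def FarA (N : ℕ) (H : ℝ) : Prop :=
  ∀ a : ℕ → ℤ, a 1 = (N : ℤ) - 2 →
    (∀ n : ℕ, 2 ≤ n → a n = a (n - 1) -
      ((Int.gcd (a (n - 1)) ((N : ℤ) - (-1) ^ n * ((N : ℤ) - n)) : ℕ) : ℤ)) →
    ∀ g : ℕ, IsLeast {n : ℕ | 2 ≤ n ∧ a n = 0} g → (g : ℝ) + H ≤ N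

lemma farA_minFac (N : ℕ) (hN : 3 ≤ N) (hc : ¬ N.Prime) : FarA N N.minFac := by
  intro a h1 h2 g hg
  exact_mod_cast detA N hN hc a ⟨h1, h2⟩ g hg

lemma ev_H : ∃ Y₀ : ℕ, ∀ Y : ℕ, Y₀ ≤ Y → 8 * (Real.log Y ^ 2) ≤ (Y : ℝ) ^ (1 / 16 : ℝ) ∧
    4 * Real.log Y ^ 3 ≤ Y ∧ 1 ≤ Real.log Y := by
  have hXr : Tendsto (fun X : ℕ => (X : ℝ)) atTop atTop := tendsto_natCast_atTop_atTop
  have h1 := ((isLittleO_log_rpow_rpow_atTop (2 : ℝ) (by norm_num : (0 : ℝ) < 1 / 16)).comp_tendsto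
      hXr).bound (by norm_num : (0 : ℝ) < 1 / 8)
  have h2 := ((isLittleO_log_rpow_rpow_atTop (3 : ℝ) (by norm_num : (0 : ℝ) < 1)).comp_tendsto
      hXr).bound (by norm_num : (0 : ℝ) < 1 / 4)
  have h3 := (Real.tendsto_log_atTop.comp hXr).eventually_ge_atTop 1
  obtain ⟨Y₀, h⟩ := eventually_atTop.1 ((h1.and h2).and h3)
  refine ⟨Y₀, fun Y hY => ?_⟩
  obtain ⟨⟨a1, a2⟩, a3⟩ := h Y hY
  simp only [Function.comp_def] at a1 a2 a3
  have hl : 0 ≤ Real.log (Y : ℝ) := by linarith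
  rw [Real.norm_of_nonneg (by positivity), Real.norm_of_nonneg (by positivity)] at a1 a2
  rw [show (2 : ℝ) = ((2 : ℕ) : ℝ) by norm_num, Real.rpow_natCast] at a1
  rw [show (3 : ℝ) = ((3 : ℕ) : ℝ) by norm_num, Real.rpow_natCast, Real.rpow_one] at a2
  exact ⟨by linarith, by linarith, a3⟩

/-- few integers with a small deviation -/
theorem typicalA : ∃ C : ℝ, 0 < C ∧ ∃ Y₀ : ℕ, ∀ Y X : ℕ, Y₀ ≤ Y → Y ≤ X → ∀ H : ℝ, 1 ≤ H →
    ∀ S : Finset ℕ, S ⊆ Ioc X (X + Y) → (∀ N ∈ S, ¬ FarA N H) →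
    (S.card : ℝ) ≤ C * (1 + H / Real.log Y) * Y / Real.log Y := by
  obtain ⟨C, hC, Y₁, h⟩ := pairs_up
  obtain ⟨N₀, hN₀⟩ := Pool.Agent.Results.MP_b5e119_nt.TwoThirds.result.2 (1 / 12) (by norm_num)
  obtain ⟨Y₂, hY₂⟩ := ev_H
  refine ⟨C, by linarith, max (max Y₁ N₀) (max Y₂ 3), ?_⟩
  intro Y X hY hYX H hH S hS hSp
  have hYa : Y₁ ≤ Y := (le_max_left _ _).trans ((le_max_left _ _).trans hY)
  have hYb : N₀ ≤ Y := (le_max_right _ _).trans ((le_max_left _ _).trans hY)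
  have hYc : Y₂ ≤ Y := (le_max_left _ _).trans ((le_max_right _ _).trans hY)
  have hYd : 3 ≤ Y := (le_max_right _ _).trans ((le_max_right _ _).trans hY)
  obtain ⟨b1, b2, b3⟩ := hY₂ Y hYc
  have hY3 : (3 : ℝ) ≤ Y := by exact_mod_cast hYd
  have hlog0 : 0 < Real.log Y := by linarith
  have hYX' : (Y : ℝ) ≤ X := by exact_mod_cast hYX
  have hH0 : 0 < H := by linarith
  rcases le_or_gt H (Real.log Y ^ 2) with hcase | hcase
  · have hfl : ((⌊H⌋₊ : ℕ) : ℝ) ≤ H := Nat.floor_le hH0.le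
    have h1 := h X Y hYa hYX ⌊H⌋₊ (by linarith) S hS (by
      intro N hN
      have h2 := hSp N hN
      unfold FarA at h2
      push Not at h2
      obtain ⟨a, a1, a2, g, hg, hlt⟩ := h2
      have hNX := (mem_Ioc.1 (hS hN)).1
      have hNXr : (X : ℝ) < N := by exact_mod_cast hNX
      have hN3 : 3 ≤ N := by omega
      have hgN := zeroA_le hN3 ⟨a1, a2⟩ hg
      have h3 : (2 / 3 + 1 / 12 : ℝ) * N ≤ g := by
        have h4 : Real.log Y ^ 2 ≤ Real.log Y ^ 3 := pow_le_pow_right₀ b3 (by norm_num)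
        have h5 : 4 * H ≤ N := by linarith
        linarith
      obtain ⟨h6, h7⟩ := hN₀ N (by omega) a a1 a2 g hg h3
      refine ⟨N - 1 - g, ?_, by omega, ?_, ?_⟩
      · apply Nat.le_floor
        have h8 : ((N - 1 - g : ℕ) : ℝ) = (N : ℝ) - 1 - g := by
          rw [Nat.cast_sub (by omega), Nat.cast_sub (by omega)]
          push_cast
          ring
        rw [h8]
        linarith
      · have e : N - (N - 1 - g) = g + 1 := by omega
        rw [e]; exact h6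
      · have e : N + (N - 1 - g) = 2 * N - g - 1 := by omega
        rw [e]; exact h7)
    refine h1.trans ?_
    have hC0 : 0 ≤ C := by linarith
    gcongr
  · have h1 : (S.card : ℝ) ≤ Y := by
      have h2 := card_le_card hS
      rw [Nat.card_Ioc] at h2
      have : S.card ≤ Y := by omega
      exact_mod_cast this
    refine h1.trans ?_
    rw [le_div_iff₀ hlog0]
    have h3 : Real.log Y ≤ H / Real.log Y := by
      rw [le_div_iff₀ hlog0, ← sq]
      exact hcase.le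
    have h4 : Real.log Y ≤ C * (1 + H / Real.log Y) := by
      have h5 : 0 ≤ H / Real.log Y := by positivity
      nlinarith
    calc (Y : ℝ) * Real.log Y ≤ Y * (C * (1 + H / Real.log Y)) := by gcongr
      _ = _ := by ring

end Pool.Agent.X32.Dev
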