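import Pool.Agent.X32.Dev.Det
import Pool.Agent.X32.Dev.Low
import Pool.Agent.X32.Dev.Up
import Pool.Agent.Results.MP_3f8e47_nt.ThreeQuarters

/-!
# The gcd recursion for prime triples: typical and large deviations
-/

set_option autoImplicit false

namespace Pool.Agent.X32.Dev

open Finset Filter Polynomial

/-- the polynomials `X - 4`, `X - 2`, `X + 2` -/
noncomputable def F3 : Fin 3 → ℤ[X] := ![X + C (-4), X + C (-2), X + C 2]

lemma F30 (x : ℤ) : (F3 0).eval x = x - 4 := by simp [F3]; ring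
lemma F31 (x : ℤ) : (F3 1).eval x = x - 2 := by simp [F3]; ring
lemma F32 (x : ℤ) : (F3 2).eval x = x + 2 := by simp [F3]

lemma F3_form (i : Fin 3) : ∃ c : ℤ, F3 i = X + C c := by
  fin_cases i
  · exact ⟨-4, rfl⟩
  · exact ⟨-2, rfl⟩
  · exact ⟨2, rfl⟩

lemma sysF3 : Pool.Agent.W123.RU.Poly.Sys F3 where
  irr := fun i => by
    obtain ⟨c, hc⟩ := F3_form i
    rw [hc]
    have : (X + C c : ℤ[X]) = X - C (-c) := by simp
    rw [this]
    exact irreducible_X_sub_C _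
  deg := fun i => by
    obtain ⟨c, hc⟩ := F3_form i
    rw [hc, natDegree_X_add_C]
    norm_num
  lead := fun i => by
    obtain ⟨c, hc⟩ := F3_form i
    rw [hc, leadingCoeff_X_add_C]
    norm_num
  inj := by
    intro i j hij
    have h1 : (F3 i).eval 0 = (F3 j).eval 0 := by rw [hij]
    have e0 := F30 0
    have e1 := F31 0
    have e2 := F32 0
    fin_cases i <;> fin_cases j <;>
      first
      | rfl
      | (exfalso; simp only [Fin.mk_one, Fin.reduceFinMk, Fin.zero_eta, e0, e1, e2] at h1; omega)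
  adm := by
    intro p hp
    by_cases h2 : p = 2
    · refine ⟨5, fun i h => ?_⟩
      subst h2
      fin_cases i
      · have h' : ((2 : ℕ) : ℤ) ∣ (F3 0).eval ((5 : ℕ) : ℤ) := h
        rw [F30] at h'
        norm_num at h'
      · have h' : ((2 : ℕ) : ℤ) ∣ (F3 1).eval ((5 : ℕ) : ℤ) := h
        rw [F31] at h'
        norm_num at h'
      · have h' : ((2 : ℕ) : ℤ) ∣ (F3 2).eval ((5 : ℕ) : ℤ) := h
        rw [F32] at h'
        norm_num at h'
    · refine ⟨6, fun i h => ?_⟩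
      have h8 : (p : ℤ) ∣ 8 := by
        fin_cases i
        · have h' : (p : ℤ) ∣ (F3 0).eval ((6 : ℕ) : ℤ) := h
          rw [F30] at h'
          norm_num at h'
          exact h'.trans (by norm_num)
        · have h' : (p : ℤ) ∣ (F3 1).eval ((6 : ℕ) : ℤ) := h
          rw [F31] at h'
          norm_num at h'
          exact h'.trans (by norm_num)
        · have h' : (p : ℤ) ∣ (F3 2).eval ((6 : ℕ) : ℤ) := h
          rw [F32] at h'
          norm_num at h'
          exact h'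
      have h9 : p ∣ 2 ^ 3 := by
        have : p ∣ 8 := by exact_mod_cast h8
        norm_num
        exact this
      exact h2 ((Nat.prime_dvd_prime_iff_eq hp Nat.prime_two).1 (hp.dvd_of_dvd_pow h9))

/-- the recursion with the parameter `N` is at most `N - H` steps long -/
def FarB (N : ℕ) (H : ℝ) : Prop :=
  ∀ a : ℕ → ℤ, a 1 = (N : ℤ) - 6 →
    (∀ n : ℕ, 2 ≤ n → a n = a (n - 1) - ((Int.gcd (a (n - 1)) ((n + b n : ℕ) : ℤ) : ℕ) : ℤ)) →
    ∀ f : ℕ, IsLeast {n : ℕ | 1 ≤ n ∧ a n = 0} f → (f : ℝ) + H ≤ N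

/-- many integers with a large deviation in every interval -/
theorem manyB : ∃ c : ℝ, 0 < c ∧ ∃ Y₀ : ℕ, ∀ Y X : ℕ, Y₀ ≤ Y → Y ≤ X →
    ∃ S : Finset ℕ, S ⊆ Ioc X (X + Y) ∧ (∀ N ∈ S, FarB N ((Y : ℝ) ^ c)) ∧
      (Y : ℝ) / Real.log Y ^ 3 ≤ (S.card : ℝ) := by
  classical
  obtain ⟨v, hv, r₀, hr₀, h⟩ := rough_many F3 sysF3
  obtain ⟨C, hC, X₀, hup⟩ := triples_up
  obtain ⟨r, hr1, hr2⟩ : ∃ r : ℕ, r₀ ≤ r ∧ (C + 1) / v ≤ r :=
    ⟨max r₀ ⌈(C + 1) / v⌉₊, le_max_left _ _, (Nat.le_ceil _).trans (by exact_mod_cast le_max_right _ _)⟩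
  obtain ⟨Y₁, hY₁⟩ := h r hr1
  have hrN : 2 ≤ r := hr₀.trans hr1
  have hr : (0 : ℝ) < r := by exact_mod_cast (by omega : 0 < r)
  have hr1' : (1 : ℝ) ≤ r := by exact_mod_cast (by omega : 1 ≤ r)
  have hpow : Tendsto (fun X : ℕ => (X : ℝ) ^ (1 / (r : ℝ))) atTop atTop :=
    (tendsto_rpow_atTop (by positivity)).comp tendsto_natCast_atTop_atTop
  obtain ⟨Y₂, hY₂⟩ := eventually_atTop.1 (hpow.eventually_ge_atTop 10)
  refine ⟨1 / r, by positivity, max (max Y₁ X₀) (max Y₂ 100), ?_⟩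
  intro Y X hY hYX
  have hYa : Y₁ ≤ Y := (le_max_left _ _).trans ((le_max_left _ _).trans hY)
  have hYb : X₀ ≤ Y := (le_max_right _ _).trans ((le_max_left _ _).trans hY)
  have hYd : Y₂ ≤ Y := (le_max_left _ _).trans ((le_max_right _ _).trans hY)
  have hYc : 100 ≤ Y := (le_max_right _ _).trans ((le_max_right _ _).trans hY)
  have hY3 : (100 : ℝ) ≤ Y := by exact_mod_cast hYc
  have hlog0 : 0 < Real.log Y := Real.log_pos (by linarith)
  have h10 := hY₂ Y hYd
  obtain ⟨R, hR1, hR2, h1⟩ := hY₁ Y X hYa hYX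
  rw [Fintype.card_fin] at h1
  obtain ⟨T, hT⟩ : ∃ T, T = (Finset.Ioc X (X + Y)).filter (fun m : ℕ => (m - 4).Prime ∧ (m - 2).Prime ∧
      (m + 2).Prime) := ⟨_, rfl⟩
  have hTc : (T.card : ℝ) ≤ C * Y / Real.log Y ^ 3 := by
    have h2 := hup (X - 4) Y hYb (T.image (fun m => m - 4)) (by
      intro n hn
      rw [mem_image] at hn
      obtain ⟨m, hm, rfl⟩ := hn
      rw [hT, mem_filter, mem_Ioc] at hm
      rw [mem_Ioc]
      omega) (by
      intro n hn
      rw [mem_image] at hn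
      obtain ⟨m, hm, rfl⟩ := hn
      rw [hT, mem_filter, mem_Ioc] at hm
      obtain ⟨⟨m1, m2⟩, m3, m4, m5⟩ := hm
      have e1 : m - 4 + 2 = m - 2 := by omega
      have e2 : m - 4 + 6 = m + 2 := by omega
      rw [e1, e2]
      exact ⟨by omega, m3, m4, m5⟩)
    rwa [card_image_of_injOn] at h2
    intro m hm m' hm' heq
    rw [mem_coe, hT, mem_filter, mem_Ioc] at hm hm'
    simp only at heq
    omega
  refine ⟨R \ T, ?_, ?_, ?_⟩
  · intro N hN
    exact hR1 (Finset.mem_sdiff.1 hN).1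
  · intro N hN a ha1 ha2 f hf
    rw [Finset.mem_sdiff, hT, mem_filter] at hN
    obtain ⟨hN0, hN3⟩ := hN
    have hN1 := hR1 hN0
    have hN2 := hR2 N hN0
    have hN4 := mem_Ioc.1 hN1
    have hN5 : 100 < N := by omega
    obtain ⟨y, hy⟩ : ∃ y : ℕ, y = ⌊(Y : ℝ) ^ (1 / (r : ℝ))⌋₊ := ⟨_, rfl⟩
    have hy0 : (0 : ℝ) ≤ (Y : ℝ) ^ (1 / (r : ℝ)) := by positivity
    have hy10 : 10 ≤ y := by rw [hy]; exact Nat.le_floor (by exact_mod_cast h10)
    have hd := detB N y (by omega) (by omega) (by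
      intro q hq hdvd
      rw [hy, Nat.floor_lt hy0]
      rcases hdvd with h2 | h2 | h2
      · refine hN2 0 q hq ?_
        rw [F30]
        have e : ((N - 4 : ℕ) : ℤ) = (N : ℤ) - 4 := by omega
        rw [← e]
        exact_mod_cast h2
      · refine hN2 1 q hq ?_
        rw [F31]
        have e : ((N - 2 : ℕ) : ℤ) = (N : ℤ) - 2 := by omega
        rw [← e]
        exact_mod_cast h2
      · refine hN2 2 q hq ?_
        rw [F32]
        exact_mod_cast h2) (by
      by_contra hcon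
      push Not at hcon
      exact hN3 ⟨hN1, hcon.1, hcon.2.1, hcon.2.2⟩) a ⟨ha1, ha2⟩ f hf
    have h2 : ((f : ℝ)) + y + 5 ≤ N := by exact_mod_cast hd
    have h3 : (Y : ℝ) ^ (1 / (r : ℝ)) < (y : ℝ) + 1 := by
      rw [hy]
      exact Nat.lt_floor_add_one _
    linarith
  · have h2 : R.card ≤ T.card + (R \ T).card := by
      have := card_le_card (show R ⊆ T ∪ (R \ T) by
        intro x hx
        by_cases hxT : x ∈ T
        · exact mem_union_left _ hxT
        · exact mem_union_right _ (Finset.mem_sdiff.2 ⟨hx, hxT⟩))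
      exact this.trans (card_union_le _ _)
    have h2' : (R.card : ℝ) ≤ T.card + (R \ T).card := by exact_mod_cast h2
    have h7 : (C + 1) * (Y / Real.log Y ^ 3) ≤ v * r ^ 3 * Y / Real.log Y ^ 3 := by
      rw [div_le_iff₀ hv] at hr2
      have h8 : (r : ℝ) ≤ r ^ 3 := by
        calc (r : ℝ) = r ^ 1 := (pow_one _).symm
          _ ≤ r ^ 3 := pow_le_pow_right₀ hr1' (by norm_num)
      have : 0 ≤ (Y : ℝ) / Real.log Y ^ 3 := by positivity
      calc (C + 1) * (Y / Real.log Y ^ 3) ≤ (r * v) * (Y / Real.log Y ^ 3) := by gcongr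
        _ ≤ (r ^ 3 * v) * (Y / Real.log Y ^ 3) := by gcongr
        _ = _ := by ring
    have h8 : C * Y / Real.log Y ^ 3 = C * (Y / Real.log Y ^ 3) := by ring
    rw [h8] at hTc
    linarith

lemma zeroB_le {N : ℕ} (hN : 6 ≤ N) {a : ℕ → ℤ} (ha : RecB N a) {f : ℕ}
    (hf : IsLeast {n : ℕ | 1 ≤ n ∧ a n = 0} f) : f + 5 ≤ N := by
  have h := tail a 1 1 f le_rfl (by rw [ha.1]; omega) (fun n hn hp => stepB ha n hn hp) hf
  rw [ha.1] at h
  push_cast at h
  omega

lemma ev_H3 : ∃ Y₀ : ℕ, ∀ Y : ℕ, Y₀ ≤ Y → 12 * Real.log Y ^ 3 ≤ Y ∧ 1 ≤ Real.log Y := by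
  have hXr : Tendsto (fun X : ℕ => (X : ℝ)) atTop atTop := tendsto_natCast_atTop_atTop
  have h2 := ((isLittleO_log_rpow_rpow_atTop (3 : ℝ) (by norm_num : (0 : ℝ) < 1)).comp_tendsto
      hXr).bound (by norm_num : (0 : ℝ) < 1 / 12)
  have h3 := (Real.tendsto_log_atTop.comp hXr).eventually_ge_atTop 1
  obtain ⟨Y₀, h⟩ := eventually_atTop.1 (h2.and h3)
  refine ⟨Y₀, fun Y hY => ?_⟩
  obtain ⟨a2, a3⟩ := h Y hY
  simp only [Function.comp_def] at a2 a3
  have hl : 0 ≤ Real.log (Y : ℝ) := by linarith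
  rw [Real.norm_of_nonneg (by positivity), Real.norm_of_nonneg (by positivity)] at a2
  rw [show (3 : ℝ) = ((3 : ℕ) : ℝ) by norm_num, Real.rpow_natCast, Real.rpow_one] at a2
  exact ⟨by linarith, a3⟩

/-- few integers with a small deviation -/
theorem typicalB : ∃ C : ℝ, 0 < C ∧ ∃ Y₀ : ℕ, ∀ Y X : ℕ, Y₀ ≤ Y → Y ≤ X → ∀ H : ℝ, 1 ≤ H →
    ∀ S : Finset ℕ, S ⊆ Ioc X (X + Y) → (∀ N ∈ S, ¬ FarB N H) →
    (S.card : ℝ) ≤ C * H * Y / Real.log Y ^ 3 := by
  classical
  obtain ⟨C, hC, Y₁, h⟩ := triples_up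
  obtain ⟨N₀, hN₀⟩ := Pool.Agent.Results.MP_3f8e47_nt.ThreeQuarters.result.2 (1 / 8) (by norm_num)
  obtain ⟨Y₂, hY₂⟩ := ev_H3
  refine ⟨4 * C + 1, by positivity, max (max Y₁ N₀) (max Y₂ 100), ?_⟩
  intro Y X hY hYX H hH S hS hSp
  have hYa : Y₁ ≤ Y := (le_max_left _ _).trans ((le_max_left _ _).trans hY)
  have hYb : N₀ ≤ Y := (le_max_right _ _).trans ((le_max_left _ _).trans hY)
  have hYc : Y₂ ≤ Y := (le_max_left _ _).trans ((le_max_right _ _).trans hY)
  have hYd : 100 ≤ Y := (le_max_right _ _).trans ((le_max_right _ _).trans hY)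
  obtain ⟨b2, b3⟩ := hY₂ Y hYc
  have hY3 : (100 : ℝ) ≤ Y := by exact_mod_cast hYd
  have hlog0 : 0 < Real.log Y := by linarith
  have hYX' : (Y : ℝ) ≤ X := by exact_mod_cast hYX
  have hH0 : 0 < H := by linarith
  rcases le_or_gt H (Real.log Y ^ 3) with hcase | hcase
  · have hfl : ((⌊H⌋₊ : ℕ) : ℝ) ≤ H := Nat.floor_le hH0.le
    have h12H : 12 * H ≤ Y := by linarith
    have h12n : 12 * ⌊H⌋₊ ≤ Y := by
      have : (12 : ℝ) * ((⌊H⌋₊ : ℕ) : ℝ) ≤ Y := by linarith
      exact_mod_cast this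
    obtain ⟨T, hT⟩ : ∃ T, T = (Ioc (X - Y) (X - Y + 2 * Y)).filter (fun n => 2 * Y ≤ 4 * n ∧ n.Prime ∧
      (n + 2).Prime ∧ (n + 6).Prime) := ⟨_, rfl⟩
    have hTc := h (X - Y) (2 * Y) (by omega) T (by rw [hT]; exact filter_subset _ _) (by
      intro n hn
      rw [hT, mem_filter] at hn
      exact hn.2)
    have hsub : S ⊆ (T ×ˢ range (⌊H⌋₊ + 1)).image (fun z : ℕ × ℕ => z.1 + z.2 - 1) := by
      intro N hN
      have h2 := hSp N hN
      unfold FarB at h2
      push Not at h2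
      obtain ⟨a, a1, a2, f, hf, hlt⟩ := h2
      have hNX := mem_Ioc.1 (hS hN)
      have hNXr : (X : ℝ) < N := by exact_mod_cast hNX.1
      have hfN := zeroB_le (by omega) ⟨a1, a2⟩ hf
      have h3 : (3 / 4 + 1 / 8 : ℝ) * N ≤ f := by
        have h5 : 12 * H ≤ N := by linarith
        linarith
      obtain ⟨h6, h7, h8⟩ := hN₀ N (by omega) a a1 a2 f hf h3
      have hNf : N - f ≤ ⌊H⌋₊ := by
        apply Nat.le_floor
        rw [Nat.cast_sub (by omega)]
        linarith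
      rw [mem_image]
      refine ⟨(f + 1, N - f), ?_, ?_⟩
      · rw [mem_product, hT, mem_filter, mem_Ioc, mem_range]
        refine ⟨⟨⟨?_, ?_⟩, ?_, h6, ?_, ?_⟩, ?_⟩
        · simp only
          omega
        · simp only
          omega
        · simp only
          omega
        · exact h7
        · exact h8
        · simp only
          omega
      · simp only
        omega
    have h3 := card_le_card hsub
    have h4 : S.card ≤ T.card * (⌊H⌋₊ + 1) := by
      refine h3.trans (card_image_le.trans ?_)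
      rw [card_product, card_range]
    have h5 : (S.card : ℝ) ≤ T.card * ((⌊H⌋₊ : ℕ) + 1) := by exact_mod_cast h4
    have h6 : Real.log Y ≤ Real.log ((2 * Y : ℕ) : ℝ) := by
      apply Real.log_le_log (by linarith)
      push_cast
      linarith
    calc (S.card : ℝ) ≤ T.card * ((⌊H⌋₊ : ℕ) + 1) := h5
      _ ≤ (C * (2 * Y : ℕ) / Real.log ((2 * Y : ℕ) : ℝ) ^ 3) * (H + H) := by gcongr
      _ ≤ (C * (2 * Y : ℕ) / Real.log Y ^ 3) * (H + H) := by gcongr
      _ = 4 * C * H * Y / Real.log Y ^ 3 := by push_cast; ring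
      _ ≤ (4 * C + 1) * H * Y / Real.log Y ^ 3 := by gcongr; linarith
  · have h1 : (S.card : ℝ) ≤ Y := by
      have h2 := card_le_card hS
      rw [Nat.card_Ioc] at h2
      have : S.card ≤ Y := by omega
      exact_mod_cast this
    refine h1.trans ?_
    rw [le_div_iff₀ (by positivity)]
    calc (Y : ℝ) * Real.log Y ^ 3 ≤ Y * H := by gcongr
      _ = 1 * H * Y := by ring
      _ ≤ (4 * C + 1) * H * Y := by gcongr; linarith

end Pool.Agent.X32.Dev
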